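import Pool.Agent.Helper81.THA.Exh
import Pool.Agent.Helper80.HCI.Few
import Pool.Agent.Helper79.NF.Def
import Pool.Agent.Helper97.SL.Rj
import Pool.Agent.Helper50.CV.Few

/-! Functions which are polynomials with coefficients of rate zero on events of extensions of all restrictions are
polynomials with coefficients of rate zero (on the space). -/

set_option autoImplicit false

namespace Pool.Agent.Helper81.THA

open Finset Filter Topology Pool.Agent.Helper69.RK Pool.Agent.Helper31.EC Pool.Agent.Helper31.EC.Sp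
open Pool.Agent.Helper31.EC.QS
open Pool.Agent.Helper82.TP (Lit)
open Pool.Agent.Helper79.NF (cel cel_bdd cel_lit)

noncomputable section

/-! ### polynomials of bounded degree -/

section pol

variable {m D : ℕ}

/-- exponents -/
abbrev Ex (m D : ℕ) : Type := Fin m → Fin (D + 1)

/-- the monomial -/
def mon (x : Ex m D) : Fin m →₀ ℕ := Finsupp.equivFunOnFinite.symm fun i => (x i : ℕ)

theorem mon_apply (x : Ex m D) (i : Fin m) : mon x i = (x i : ℕ) := rfl

theorem mon_inj : Function.Injective (mon (m := m) (D := D)) := by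
  intro x y h
  funext i
  apply Fin.ext
  have h1 := DFunLike.congr_fun h i
  rwa [mon_apply, mon_apply] at h1

open Classical in
theorem eq_sum {A : Type*} [CommRing A] (Θ : MvPolynomial (Fin m) A) (h : Θ.totalDegree ≤ D) :
    Θ = ∑ x : Ex m D, MvPolynomial.monomial (mon x) (Θ.coeff (mon x)) := by
  have h1 : Θ.support ⊆ (univ : Finset (Ex m D)).image mon := by
    intro n hn
    have h2 : ∀ i, n i ≤ D := by
      intro i
      refine le_trans ?_ ((MvPolynomial.le_totalDegree hn).trans h)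
      rw [Finsupp.sum_fintype _ _ fun _ => rfl]
      exact Finset.single_le_sum (f := fun i => n i) (fun _ _ => Nat.zero_le _) (Finset.mem_univ i)
    rw [Finset.mem_image]
    refine ⟨fun i => ⟨n i, Nat.lt_succ_of_le (h2 i)⟩, Finset.mem_univ _, ?_⟩
    ext i
    rfl
  conv_lhs => rw [Θ.as_sum, Finset.sum_subset h1 (fun n _ hn => by
    rw [MvPolynomial.notMem_support_iff.mp hn, MvPolynomial.monomial_zero])]
  rw [Finset.sum_image fun x _ y _ h => mon_inj h]

/-- values -/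
def pv (θ : Ex m D → ℝ) (y : Fin m → ℝ) : ℝ := ∑ x, θ x * ∏ i, y i ^ (x i : ℕ)

theorem eval_sum {A : Type*} [CommRing A] (c : Ex m D → A) (y : Fin m → A) :
    MvPolynomial.eval y (∑ x : Ex m D, MvPolynomial.monomial (mon x) (c x)) = ∑ x, c x * ∏ i, y i ^ (x i : ℕ) := by
  rw [map_sum]
  apply Finset.sum_congr rfl
  intro x _
  rw [MvPolynomial.eval_monomial, Finsupp.prod_fintype _ _ fun _ => pow_zero _]
  rfl

variable {S : Sp}

/-- the polynomial of tame functions -/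
def pvT (g : Ex m D → TR S) (y : Fin m → TR S) : TR S := ∑ x, g x * ∏ i, y i ^ (x i : ℕ)

theorem ev_pvT (g : Ex m D → TR S) (y : Fin m → TR S) (k : ℕ) (ω : (S.F k).Ω) :
    TR.ev (pvT g y) k ω = pv (fun x => TR.ev (g x) k ω) (fun i => TR.ev (y i) k ω) := by
  rw [← TR.evh_apply]
  unfold pvT pv
  rw [map_sum]
  apply Finset.sum_congr rfl
  intro x _
  rw [map_mul, map_prod]
  simp only [map_pow]
  rfl

theorem mk_pvT (g : Ex m D → TR S) (y : Fin m → TR S) :
    QS.mk (pvT g y) = ∑ x, QS.mk (g x) * ∏ i, QS.mk (y i) ^ (x i : ℕ) := by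
  unfold pvT
  rw [map_sum]
  apply Finset.sum_congr rfl
  intro x _
  rw [map_mul, map_prod]
  simp only [map_pow]

/-- good values -/
def Gq (q : Fin m → TR S) (a : TR S) (κ : ℝ) (k : ℕ) (η : ℝ) (θ : Ex m D → ℝ) (ω : (S.F k).Ω) : Prop :=
  (∀ x, |θ x| ≤ 2 ^ (η * (S.F k).n)) ∧ |TR.ev a k ω - pv θ (fun i => TR.ev (q i) k ω)| ≤ S.dl (κ - η) k

theorem Gq_mono (q : Fin m → TR S) (a : TR S) (κ : ℝ) (k : ℕ) (η η' : ℝ) (θ : Ex m D → ℝ) (ω : (S.F k).Ω)
    (h : η ≤ η') (hG : Gq q a κ k η θ ω) : Gq q a κ k η' θ ω := by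
  have hn := (S.F k).pos
  refine ⟨fun x => (hG.1 x).trans ?_, hG.2.trans (S.dl_anti (by linarith) k)⟩
  exact Real.rpow_le_rpow_of_exponent_le (by norm_num) (mul_le_mul_of_nonneg_right h hn.le)

end pol

/-! ### restricted probabilities -/

theorem pb_rest (F : FSp) (E A : F.Ω → Prop) (h : F.pb E ≠ 0) :
    F.pb (fun ω => E ω ∧ A ω) = F.pb E * (F.rest E).pb A := by
  classical
  rw [pb_eq, pb_eq (F.rest E)]
  have h1 : (F.rest E).μ = F.restμ E := rfl
  rw [h1, F.restμ_eq E h, Finset.mul_sum]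
  apply Finset.sum_congr rfl
  intro ω _
  by_cases a : A ω
  · rw [if_pos a, ← mul_assoc, mul_inv_cancel₀ h, one_mul]
    by_cases b : E ω
    · rw [if_pos ⟨b, a⟩, res_pos _ _ _ b]
    · rw [if_neg (fun hh => b hh.1), res_neg _ _ _ b]
  · rw [if_neg a, mul_zero, if_neg (fun hh => a hh.2)]

theorem card_image_le_nvf {Ω α γ : Type} [Fintype Ω] (i1 : DecidableEq α) (μ : Ω → ℝ) (f : Ω → α) (g : Ω → γ) (ω : Ω)
    (s : Finset Ω) (h : ∀ x ∈ s, μ x ≠ 0 ∧ g x = g ω) : (@Finset.image Ω α i1 f s).card ≤ nvf μ f g ω := by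
  classical
  have h1 : i1 = fun a b => Classical.propDecidable (a = b) := Subsingleton.elim _ _
  subst h1
  unfold nvf
  apply Finset.card_le_card
  intro v hv
  rw [Finset.mem_image] at hv ⊢
  obtain ⟨x, hx, rfl⟩ := hv
  exact ⟨x, Finset.mem_filter.mpr ⟨Finset.mem_univ _, h x hx⟩, rfl⟩

theorem nvf_le_card {Ω α β γ : Type} [Fintype Ω] (μ : Ω → ℝ) (f : Ω → α) (g : Ω → γ) (ω : Ω) (A : Finset β) (φ : β → α)
    (h : ∀ x, μ x ≠ 0 → g x = g ω → ∃ v ∈ A, φ v = f x) : nvf μ f g ω ≤ A.card := by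
  classical
  refine le_trans ?_ (Finset.card_image_le (s := A) (f := φ))
  unfold nvf
  have h1 : ∀ (i1 i2 : DecidableEq α) (s : Finset Ω), (∀ x ∈ s, μ x ≠ 0 ∧ g x = g ω) →
      (@Finset.image Ω α i1 f s).card ≤ (@Finset.image β α i2 φ A).card := by
    intro i1 i2 s hs
    have e1 : i1 = i2 := Subsingleton.elim _ _
    subst e1
    apply Finset.card_le_card
    intro v hv
    rw [Finset.mem_image] at hv ⊢
    obtain ⟨x, hx, rfl⟩ := hv
    exact h x (hs x hx).1 (hs x hx).2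
  exact h1 _ _ _ fun x hx => (Finset.mem_filter.mp hx).2

/-! ### few values from rate zero -/

section loc

variable {S : Sp} {m D : ℕ}

open Classical in
theorem loc (q : Fin m → QS S) (a : QS S) {κ : ℝ} (h1 : κ ≤ 1) (F : ∀ k, (S.F k).Ω → Prop)
    (hF : 0 < ul (S.pr F)) (T : Sp) (p : Pj T (S.rest F)) (E : ∀ k, (T.F k).Ω → Prop) (hE : 0 < ul (T.pr E))
    (Θ : MvPolynomial (Fin m) (QS (T.rest E))) (hΘ : Θ ∈ PK ⊥) (hD : Θ.totalDegree ≤ D)
    (hr : QS.rest E hE (p.qs (QS.rest F hF a)) -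
      MvPolynomial.eval (fun b => QS.rest E hE (p.qs (QS.rest F hF (q b)))) Θ ∈ Id (T.rest E) κ) :
    ∃ c : ℝ, 0 < c ∧ ∀ η : ℝ, 0 < η → ∀ᶠ k in UF, ∃ Λ : Fam S (fun _ => Ex m D → ℝ) k, Few Λ η ∧
      c ≤ (S.F k).pb (fun ω => F k ω ∧ Gv (fun k => Gq (fun i => rep (q i)) (rep a) κ k) k η Λ ω) := by
  refine ⟨ul (S.pr F) / 2 * (ul (T.pr E) / 2 * (1 / 2)), by positivity, fun η hη => ?_⟩
  -- the coefficients
  set N := Fintype.card (Ex m D) with hN
  set e := Fintype.equivFin (Ex m D) with he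
  set c : Fin N → QS (T.rest E) := fun i => Θ.coeff (mon (e.symm i)) with hc
  have hb := cel_bdd c
  have hbot : io (α := fun _ => Fin N → Fin 1 → ℤ) (cel c) = ⊥ := by
    rw [hb.2, eq_bot_iff, Finset.sup_le_iff]
    intro i _
    exact hΘ _
  have hlit : ∀ x : Ex m D, Lit (cel c) (Θ.coeff (mon x)) := by
    intro x
    have h2 := cel_lit c (e x)
    have h3 : c (e x) = Θ.coeff (mon x) := by
      show Θ.coeff (mon (e.symm (e x))) = _
      rw [e.symm_apply_apply]
    rwa [h3] at h2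
  choose g hg1 hg2 using hlit
  -- the relation
  have hrel : Typ (S := T.rest E) (fun k ω => |TR.ev (rep a) k (p.π k ω) -
      pv (fun x => TR.ev (g x) k ω) (fun i => TR.ev (rep (q i)) k (p.π k ω))| ≤ S.dl (κ - η) k) := by
    have h2 : QS.mk (TR.rest E (p.tr (TR.rest F (rep a))) -
        pvT g (fun i => TR.rest E (p.tr (TR.rest F (rep (q i)))))) ∈ Id (T.rest E) κ := by
      rw [map_sub, mk_pvT]
      have e1 : QS.mk (TR.rest E (p.tr (TR.rest F (rep a)))) = QS.rest E hE (p.qs (QS.rest F hF a)) := by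
        conv_rhs => rw [← mk_rep a]
        rw [QS.rest_mk, p.qs_mk, QS.rest_mk]
      have e2 : ∀ i, QS.mk (TR.rest E (p.tr (TR.rest F (rep (q i))))) = QS.rest E hE (p.qs (QS.rest F hF (q i))) := by
        intro i
        conv_rhs => rw [← mk_rep (q i)]
        rw [QS.rest_mk, p.qs_mk, QS.rest_mk]
      rw [e1]
      have e3 : (∑ x, QS.mk (g x) * ∏ i, QS.mk (TR.rest E (p.tr (TR.rest F (rep (q i))))) ^ (x i : ℕ)) =
          MvPolynomial.eval (fun b => QS.rest E hE (p.qs (QS.rest F hF (q b)))) Θ := by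
        conv_rhs => rw [eq_sum Θ hD]
        rw [eval_sum]
        apply Finset.sum_congr rfl
        intro x _
        rw [hg1 x]
        congr 1
        apply Finset.prod_congr rfl
        intro i _
        rw [e2]
      rw [e3]
      exact hr
    rw [mk_mem_Id h1] at h2
    have h3 := h2.levels hη
    apply h3.mono
    refine Eventually.of_forall fun k ω _ hω => ?_
    rw [TR.ev_sub, TR.ev_zero, sub_zero, ev_pvT] at hω
    have hdl : (T.rest E).dl (κ - η) k = S.dl (κ - η) k := by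
      unfold Sp.dl
      have : ((T.rest E).F k).n = (S.F k).n := p.hn k
      rw [this]
    rw [hdl] at hω
    exact hω
  -- few cells
  obtain ⟨E1, hE1, hfew⟩ := Helper80.HCI.few_cells hb.1.toInf (C := 0) hη (by
    have h2 : cl hb.1.toInf = ⊥ := by
      rw [← io_eq hb.1]
      exact hbot
    rw [h2]
    intro T' p' E' hE'
    rw [Pj.map_bot, restL_bot]
    exact (h_zero le_rfl).le)
  -- the family
  obtain ⟨Λ, hΛ⟩ : ∃ Λ : ∀ k, Fam S (fun _ => Ex m D → ℝ) k, ∀ k z, Λ k z =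
      ((univ : Finset (T.F k).Ω).filter (fun ω => (((T.rest E).rest E1).F k).μ ω ≠ 0 ∧
        Quotient.mk (S.F k).Z (p.π k ω) = z)).image (fun ω x => TR.ev (g x) k ω) := ⟨_, fun _ _ => rfl⟩
  have hsupp : ∀ k ω, (((T.rest E).rest E1).F k).μ ω ≠ 0 → ((T.rest E).F k).μ ω ≠ 0 ∧ (T.F k).μ ω ≠ 0 := by
    intro k ω hω
    have h2 := ((T.rest E).F k).rest_supp (E1 k) ω hω
    have h3 := (T.F k).rest_supp (E k) ω h2.1
    exact ⟨h2.1, h3.1⟩
  have hcard : ∀ᶠ k in UF, Few (Λ k) η := by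
    have hg : ∀ᶠ k in UF, ∀ x, ∀ ω ω', ((T.rest E).F k).μ ω ≠ 0 → ((T.rest E).F k).μ ω' ≠ 0 →
        ((T.rest E).F k).Z ω ω' → cel c k ω = cel c k ω' → TR.ev (g x) k ω = TR.ev (g x) k ω' := by
      rw [Filter.eventually_all]
      exact hg2
    filter_upwards [hfew, hg] with k h2 h3 z
    rw [hΛ]
    rcases ((univ : Finset (T.F k).Ω).filter (fun ω => (((T.rest E).rest E1).F k).μ ω ≠ 0 ∧
        Quotient.mk (S.F k).Z (p.π k ω) = z)).eq_empty_or_nonempty with h4 | ⟨ω0, h4⟩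
    · rw [h4]
      refine (Nat.cast_le.mpr Finset.card_image_le).trans ?_
      show ((0 : ℕ) : ℝ) ≤ _
      rw [Nat.cast_zero]
      positivity
    · rw [Finset.mem_filter] at h4
      have h5 := h2 ω0 h4.2.1
      rw [zero_add] at h5
      have h6 : ((T.rest E).F k).n = (S.F k).n := p.hn k
      rw [h6] at h5
      refine le_trans ?_ h5
      have h7 : nvf (((T.rest E).rest E1).F k).μ (fun ω x => TR.ev (g x) k ω)
          (Quotient.mk (((T.rest E).rest E1).F k).Z) ω0 ≤ nv (((T.rest E).rest E1).F k) (hb.1.toInf.1 k) ω0 := by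
        unfold nv
        apply nvf_mono
        intro ω₁ ω₂ a1 a2 b1 b2 hc
        funext x
        apply h3 x _ _ (hsupp k _ a1).1 (hsupp k _ a2).1
        · exact (Quotient.exact (b1.trans b2.symm))
        · exact Quotient.exact hc
      have h8 : ((((univ : Finset (T.F k).Ω).filter (fun ω => (((T.rest E).rest E1).F k).μ ω ≠ 0 ∧
          Quotient.mk (S.F k).Z (p.π k ω) = z)).image (fun ω (x : Ex m D) => TR.ev (g x) k ω)).card) ≤
          nvf (((T.rest E).rest E1).F k).μ (fun ω x => TR.ev (g x) k ω)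
            (Quotient.mk (((T.rest E).rest E1).F k).Z) ω0 := by
        refine card_image_le_nvf _ _ _ _ _ _ ?_
        intro ω hω0
        have hω := Finset.mem_filter.mp hω0
        refine ⟨hω.2.1, ?_⟩
        apply Quotient.sound
        have h9 : (S.F k).Z (p.π k ω) (p.π k ω0) := Quotient.exact (hω.2.2.trans h4.2.2.symm)
        exact (p.hZ k ω ω0 (hsupp k _ hω.2.1).2 (hsupp k _ h4.2.1).2).mpr h9
      exact_mod_cast h8.trans h7
  -- tame
  have htame : ∀ᶠ k in UF, ∀ x, ∀ ω, ((T.rest E).F k).μ ω ≠ 0 → |TR.ev (g x) k ω| ≤ 2 ^ (η * (S.F k).n) := by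
    rw [Filter.eventually_all]
    intro x
    obtain ⟨K, hK, hK'⟩ := (g x).2
    filter_upwards [hK', hK.eventually_le hη, hK.1] with k a1 a2 a3 ω hω
    have h6 : ((T.rest E).F k).n = (S.F k).n := p.hn k
    rw [h6] at a2
    have h7 := a1 ω hω
    have h8 : |TR.ev (g x) k ω| ≤ K k := h7
    linarith
  have hE3 := hE1.and hrel
  have hhalf : ∀ᶠ k in UF, (1 : ℝ) / 2 ≤ (T.rest E).pr (fun k ω => E1 k ω ∧ |TR.ev (rep a) k (p.π k ω) -
      pv (fun x => TR.ev (g x) k ω) (fun i => TR.ev (rep (q i)) k (p.π k ω))| ≤ S.dl (κ - η) k) k := by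
    have h2 := (Typ_iff _).mp hE3
    exact (h2.eventually (lt_mem_nhds (show (1 : ℝ) / 2 < 1 by norm_num))).mono fun k hk => hk.le
  filter_upwards [hcard, htame, hhalf, Helper40.EL.pr_half' hF, Helper40.EL.pr_half' hE] with k a1 a2 a3 a4 a5
  refine ⟨Λ k, a1, ?_⟩
  have hF0 : (S.F k).pb (F k) ≠ 0 := by
    have h2 : 0 < S.pr F k := (half_pos hF).trans_le a4
    exact h2.ne'
  have hE0 : (T.F k).pb (E k) ≠ 0 := by
    have h2 : 0 < T.pr E k := (half_pos hE).trans_le a5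
    exact h2.ne'
  rw [pb_rest _ _ _ hF0]
  apply mul_le_mul a4 _ (by positivity) ((S.F k).pb_nonneg _)
  have h2 := Helper97.SL.pb_comp p (fun k ω => Gv (S := S) (fun k => Gq (fun i => rep (q i)) (rep a) κ k) k η (Λ k) ω) k
  have h3 : ((S.F k).rest (F k)).pb (fun ω => Gv (S := S) (fun k => Gq (fun i => rep (q i)) (rep a) κ k) k η (Λ k) ω) =
      (T.F k).pb (fun ω => Gv (S := S) (fun k => Gq (fun i => rep (q i)) (rep a) κ k) k η (Λ k) (p.π k ω)) := h2.symm
  refine le_trans ?_ (le_of_eq h3.symm)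
  have h4 : (T.F k).pb (fun ω => E k ω ∧ (E1 k ω ∧ |TR.ev (rep a) k (p.π k ω) -
      pv (fun x => TR.ev (g x) k ω) (fun i => TR.ev (rep (q i)) k (p.π k ω))| ≤ S.dl (κ - η) k)) ≤
      (T.F k).pb (fun ω => Gv (S := S) (fun k => Gq (fun i => rep (q i)) (rep a) κ k) k η (Λ k) (p.π k ω)) := by
    apply (T.F k).pb_mono
    rintro ω hω ⟨b1, b2, b3⟩
    have b4 : ((T.rest E).F k).μ ω ≠ 0 := (T.F k).rest_supp' (E k) ω hω b1
    have b5 : (((T.rest E).rest E1).F k).μ ω ≠ 0 := ((T.rest E).F k).rest_supp' (E1 k) ω b4 b2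
    refine ⟨fun x => TR.ev (g x) k ω, ?_, ?_, b3⟩
    · rw [hΛ, Finset.mem_image]
      exact ⟨ω, Finset.mem_filter.mpr ⟨Finset.mem_univ _, b5, rfl⟩, rfl⟩
    · exact fun x => a2 x ω b4
  refine le_trans ?_ h4
  rw [pb_rest _ _ _ hE0]
  exact mul_le_mul a5 a3 (by norm_num) ((T.F k).pb_nonneg _)

end loc

/-! ### the global polynomial -/

section glob

variable {S : Sp} {m D : ℕ}

theorem pow_sub {e : ℕ → ℝ} (he : Tendsto e UF (𝓝 0)) (h0 : ∀ k, 0 < e k) : S.Sub (fun k => 2 ^ (e k * (S.F k).n)) := by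
  refine ⟨Eventually.of_forall fun k => by positivity, ?_⟩
  have h1 : Tendsto (fun k => 2 / (S.F k).n + e k) UF (𝓝 (0 + 0)) := (S.div_n_tendsto 2).add he
  rw [add_zero] at h1
  refine squeeze_zero' ?_ ?_ h1
  · refine Eventually.of_forall fun k => ?_
    have hn := (S.F k).pos
    have : (0 : ℝ) < 2 ^ (e k * (S.F k).n) := by positivity
    exact div_nonneg (Real.logb_nonneg (by norm_num) (by linarith)) hn.le
  · refine Eventually.of_forall fun k => ?_
    have hn := (S.F k).pos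
    have h2 : (1 : ℝ) ≤ 2 ^ (e k * (S.F k).n) := Real.one_le_rpow (by norm_num) (mul_nonneg (h0 k).le hn.le)
    have h3 : Real.logb 2 (2 ^ (e k * (S.F k).n) + 2) ≤ 2 + e k * (S.F k).n := by
      have h4 : Real.logb 2 (2 ^ (e k * (S.F k).n) + 2) ≤ Real.logb 2 (2 ^ (2 + e k * (S.F k).n)) := by
        apply Real.logb_le_logb_of_le (by norm_num) (by positivity)
        rw [Real.rpow_add (by norm_num)]
        have : (2 : ℝ) ^ (2 : ℝ) = 4 := by norm_num
        rw [this]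
        linarith
      rwa [Real.logb_rpow (by norm_num) (by norm_num)] at h4
    calc Real.logb 2 (2 ^ (e k * (S.F k).n) + 2) / (S.F k).n ≤ (2 + e k * (S.F k).n) / (S.F k).n :=
          div_le_div_of_nonneg_right h3 hn.le
      _ = _ := by field_simp

/-- an information with few cells over every cell of the base vanishes -/
theorem io_bot {α : ℕ → Type} {X : ∀ k, (S.F k).Ω → α k} (hX : Bdd X)
    (h : ∀ C : ℝ, 0 < C → ∀ᶠ k in UF, ∀ ω, (S.F k).μ ω ≠ 0 → (nv (S.F k) (Setoid.ker (X k)) ω : ℝ) ≤ 2 ^ (C * (S.F k).n)) :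
    io X = ⊥ := by
  have hH : ∀ C : ℝ, 0 < C → H (io X) ≤ C := by
    intro C hC
    rw [H_io hX, ← ul_const C]
    refine ul_mono (UB_rt hX.toInf _) (UB_const C) ?_
    filter_upwards [h C hC] with k a
    exact Helper50.CV.rt_le_of_nv a
  have h5 : H (io X) ≤ 0 := le_of_forall_pos_le_add (by
    intro ε hε
    rw [zero_add]
    exact hH ε hε)
  have h6 : Pool.Agent.Helper31.EC.h (io X) ⊥ ≤ 0 := by
    rw [h_bot]
    exact h5
  exact le_antisymm (h_le_zero_iff.mp h6) bot_le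

open Classical in
theorem glob (q : Fin m → QS S) (a : QS S) {κ : ℝ} (h1 : κ ≤ 1) {e : ℕ → ℝ} (he : Tendsto e UF (𝓝 0))
    (h0 : ∀ k, 0 < e k) (Λ : ∀ k, Fam S (fun _ => Ex m D → ℝ) k) (hΛ : ∀ k, Few (Λ k) (e k))
    (hT : Typ (fun k ω => Gv (fun k => Gq (fun i => rep (q i)) (rep a) κ k) k (e k) (Λ k) ω)) :
    ∃ Θ : MvPolynomial (Fin m) (QS S), Θ ∈ PK ⊥ ∧ a - MvPolynomial.eval q Θ ∈ Id S κ := by
  -- the coefficients
  obtain ⟨θ, hθ⟩ : ∃ θ : ∀ k, (S.F k).Ω → Ex m D → ℝ, ∀ k ω, θ k ω =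
      if h : Gv (fun k => Gq (fun i => rep (q i)) (rep a) κ k) k (e k) (Λ k) ω then h.choose else 0 :=
    ⟨_, fun _ _ => rfl⟩
  have hbd : ∀ k ω x, |θ k ω x| ≤ 2 ^ (e k * (S.F k).n) := by
    intro k ω x
    rw [hθ]
    by_cases h : Gv (fun k => Gq (fun i => rep (q i)) (rep a) κ k) k (e k) (Λ k) ω
    · rw [dif_pos h]
      exact h.choose_spec.2.1 x
    · rw [dif_neg h]
      show |(0 : ℝ)| ≤ _
      rw [abs_zero]
      positivity
  have hmem : ∀ k ω, θ k ω ∈ insert 0 (Λ k (Quotient.mk (S.F k).Z ω)) := by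
    intro k ω
    rw [hθ]
    by_cases h : Gv (fun k => Gq (fun i => rep (q i)) (rep a) κ k) k (e k) (Λ k) ω
    · rw [dif_pos h]
      exact Finset.mem_insert_of_mem h.choose_spec.1
    · rw [dif_neg h]
      exact Finset.mem_insert_self _ _
  obtain ⟨f, hf⟩ : ∃ f : Ex m D → TR S, ∀ x k ω, TR.ev (f x) k ω = θ k ω x :=
    ⟨fun x => ⟨fun k ω => θ k ω x, fun k => 2 ^ (e k * (S.F k).n), pow_sub he h0,
      Eventually.of_forall fun k ω _ => hbd k ω x⟩, fun _ _ _ => rfl⟩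
  have hrate : ∀ x, dg (QS.mk (f x)) 1 = ⊥ := by
    intro x
    rw [dg_mk _ le_rfl]
    show io ((TR.vec fun _ : Fin 1 => f x).cellv 1) = ⊥
    apply io_bot ((TR.vec fun _ : Fin 1 => f x).bdd 1)
    intro C hC
    have hC2 : ∀ᶠ k in UF, (2 : ℝ) ≤ C * (S.F k).n := by
      filter_upwards [S.lim.eventually (eventually_ge_atTop (2 / C))] with k hk
      rw [div_le_iff₀ hC] at hk
      linarith
    filter_upwards [he.eventually (gt_mem_nhds (half_pos hC)), hC2] with k h2 h3 ω _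
    have hn := (S.F k).pos
    rw [nv_ker]
    have h4 : nvf (S.F k).μ ((TR.vec fun _ : Fin 1 => f x).cellv 1 k) (Quotient.mk (S.F k).Z) ω ≤
        (insert 0 (Λ k (Quotient.mk (S.F k).Z ω))).card := by
      apply nvf_le_card _ _ _ _ _ (fun (v : Ex m D → ℝ) (_ : Fin 1) => ⌊v x / S.dl 1 k⌋)
      intro ω' _ h6
      refine ⟨θ k ω', ?_, ?_⟩
      · have h7 := hmem k ω'
        rw [h6] at h7
        exact h7
      · funext i
        show ⌊θ k ω' x / S.dl 1 k⌋ = ⌊TR.ev (f x) k ω' / S.dl 1 k⌋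
        rw [hf]
    have h5 : (((insert 0 (Λ k (Quotient.mk (S.F k).Z ω))).card : ℕ) : ℝ) ≤ 2 ^ (e k * (S.F k).n) + 1 := by
      have h6 : (((insert 0 (Λ k (Quotient.mk (S.F k).Z ω))).card : ℕ) : ℝ) ≤
          (Λ k (Quotient.mk (S.F k).Z ω)).card + 1 := by
        exact_mod_cast Finset.card_insert_le _ _
      have h7 := hΛ k (Quotient.mk (S.F k).Z ω)
      linarith
    have h6 : (2 : ℝ) ^ (e k * (S.F k).n) + 1 ≤ 2 ^ (C * (S.F k).n) := by
      have e2 : (2 : ℝ) ^ (e k * (S.F k).n) ≤ 2 ^ (C / 2 * (S.F k).n) :=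
        Real.rpow_le_rpow_of_exponent_le (by norm_num) (mul_le_mul_of_nonneg_right h2.le hn.le)
      have e3 : (2 : ℝ) ^ (C * (S.F k).n) = 2 ^ (C / 2 * (S.F k).n) * 2 ^ (C / 2 * (S.F k).n) := by
        rw [← Real.rpow_add (by norm_num)]
        congr 1
        ring
      have e4 : (2 : ℝ) ≤ 2 ^ (C / 2 * (S.F k).n) := by
        have e5 : (2 : ℝ) ^ (1 : ℝ) ≤ 2 ^ (C / 2 * (S.F k).n) :=
          Real.rpow_le_rpow_of_exponent_le (by norm_num) (by linarith)
        rwa [Real.rpow_one] at e5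
      rw [e3]
      nlinarith
    have h7 : (nvf (S.F k).μ ((TR.vec fun _ : Fin 1 => f x).cellv 1 k) (Quotient.mk (S.F k).Z) ω : ℝ) ≤
        ((insert 0 (Λ k (Quotient.mk (S.F k).Z ω))).card : ℕ) := by exact_mod_cast h4
    linarith
  refine ⟨∑ x : Ex m D, MvPolynomial.monomial (mon x) (QS.mk (f x)), ?_, ?_⟩
  · refine Subring.sum_mem _ fun x _ => monomial_mem _ (hrate x).le
  · have e1 : a - MvPolynomial.eval q (∑ x : Ex m D, MvPolynomial.monomial (mon x) (QS.mk (f x))) =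
        QS.mk (rep a - pvT f (fun i => rep (q i))) := by
      rw [map_sub, mk_rep, mk_pvT, eval_sum]
      congr 1
      apply Finset.sum_congr rfl
      intro x _
      congr 1
      apply Finset.prod_congr rfl
      intro i _
      rw [mk_rep]
    rw [e1, mk_mem_Id h1, TR.ag_iff_levels]
    intro δ hδ
    apply hT.mono
    filter_upwards [he.eventually (gt_mem_nhds hδ)] with k h2 ω _ hω
    rw [TR.ev_sub, TR.ev_zero, sub_zero, ev_pvT]
    have h3 : (fun x => TR.ev (f x) k ω) = θ k ω := funext fun x => hf x k ω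
    rw [h3, hθ, dif_pos hω]
    exact hω.choose_spec.2.2.trans (S.dl_anti (by linarith) k)

/-- functions which are polynomials with coefficients of rate zero on events of extensions of all restrictions -/
theorem core (q : Fin m → QS S) (a : QS S) {κ : ℝ} (h1 : κ ≤ 1)
    (hloc : ∀ (F : ∀ k, (S.F k).Ω → Prop) (hF : 0 < ul (S.pr F)), ∃ (T : Sp) (p : Pj T (S.rest F))
      (E : ∀ k, (T.F k).Ω → Prop) (hE : 0 < ul (T.pr E)) (Θ : MvPolynomial (Fin m) (QS (T.rest E))), Θ ∈ PK ⊥ ∧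
        Θ.totalDegree ≤ D ∧ QS.rest E hE (p.qs (QS.rest F hF a)) -
          MvPolynomial.eval (fun b => QS.rest E hE (p.qs (QS.rest F hF (q b)))) Θ ∈ Id (T.rest E) κ) :
    ∃ Θ : MvPolynomial (Fin m) (QS S), Θ ∈ PK ⊥ ∧ a - MvPolynomial.eval q Θ ∈ Id S κ := by
  obtain ⟨e, he, h0, Λ, hΛ, hT⟩ := exh (S := S) (X := fun _ => Ex m D → ℝ)
    (G := fun k => Gq (fun i => rep (q i)) (rep a) κ k) (fun k η η' θ ω h hG => Gq_mono _ _ κ k η η' θ ω h hG)
    (fun F hF => by
      obtain ⟨T, p, E, hE, Θ, h2, h3, h4⟩ := hloc F hF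
      exact loc q a h1 F hF T p E hE Θ h2 h3 h4)
  exact glob q a h1 he h0 Λ hΛ hT

end glob

end

end Pool.Agent.Helper81.THA
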