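import Pool.Agent.Helper57.THA.St
import Pool.Agent.Helper81.THA.Core
import Pool.Agent.Helper82.TP.Base

/-! [POLQ] from [STARE]: functions of the base point which are polynomials along all lines are polynomials with
coefficients of rate zero (on the space itself). -/

set_option autoImplicit false

namespace Pool.Agent.Helper81.THA

open Finset Filter Topology Pool.Agent.Helper69.RK Pool.Agent.Helper31.EC Pool.Agent.Helper31.EC.Sp
open Pool.Agent.Helper31.EC.QS Pool.Agent.Helper57.TA Pool.Agent.Helper57.THA Pool.Agent.Helper13.AM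

noncomputable section

/-- polynomials of larger degree -/
theorem pe_pad {S : Sp} {k k' : ℕ} (h : k ≤ k') (α : Fin (k + 1) → QS S) (t : QS S) (b : S.L)
    (hα : ∀ l, dg (α l) 1 ≤ b) : ∃ α' : Fin (k' + 1) → QS S, (∀ l, dg (α' l) 1 ≤ b) ∧ pe α' t = pe α t := by
  obtain ⟨j, rfl⟩ := Nat.exists_eq_add_of_le h
  clear h
  induction j with
  | zero => exact ⟨α, hα, rfl⟩
  | succ j ih =>
    obtain ⟨α', h1, h2⟩ := ih
    refine ⟨Fin.snoc (α := fun _ => QS S) α' 0, fun l => ?_, ?_⟩
    · refine Fin.lastCases ?_ (fun i => ?_) l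
      · rw [Fin.snoc_last]
        exact (Kn S 1 le_rfl b).zero_mem
      · rw [Fin.snoc_castSucc]
        exact h1 i
    · rw [← h2]
      unfold pe
      rw [Fin.sum_univ_castSucc]
      simp only [Fin.snoc_castSucc, Fin.snoc_last, zero_mul, add_zero, Fin.val_castSucc]
      rfl

/-- restrictions of polynomials -/
theorem rest_pe {S : Sp} (E : ∀ k, (S.F k).Ω → Prop) (hE : 0 < ul (S.pr E)) {k : ℕ} (α : Fin (k + 1) → QS S)
    (t : QS S) : QS.rest E hE (pe α t) = pe (fun l => QS.rest E hE (α l)) (QS.rest E hE t) := by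
  unfold pe
  simp only [map_sum, map_mul, map_pow]

/-- the same degree for finitely many lines -/
theorem wpol_deg {S : Sp} {r : ℕ} {b : Fin r → S.L} {t a : QS S} {κ : ℝ} (h : ∀ i, WPol (b i) t a κ) :
    ∃ k : ℕ, ∀ i, ∃ α : Fin (k + 1) → QS S, (∀ l, dg (α l) 1 ≤ b i) ∧ a - pe α t ∈ Id S κ := by
  choose k α h1 h2 using h
  refine ⟨univ.sup k, fun i => ?_⟩
  obtain ⟨α', h3, h4⟩ := pe_pad (Finset.le_sup (f := k) (mem_univ i)) (α i) t (b i) (h1 i)
  exact ⟨α', h3, by rw [h4]; exact h2 i⟩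

/-- [POLQ] -/
theorem st_POLQ (hS : ST_STARE) : ST_POLQ := by
  intro d N r w z ρ C hd hC S c hc κ hκ hκ1 a ha hw
  obtain ⟨k, hk⟩ := wpol_deg hw
  obtain ⟨D, hD⟩ := hS d N r w z ρ C hd hC k
  obtain ⟨Θ, h1, h2⟩ := core (D := D) c.q a hκ1 (fun F hF => by
    have hl := (hC.ax S c hc).ln
    obtain ⟨T, p, E, hE, Θ, h1, h2, h3⟩ := hD (S.rest F) (c.rest F hF) (hC.rest S c hc F hF) (QS.rest F hF a) κ hκ hκ1
      (by
        have h1 : vd (c.rest F hF).q 1 = restL F hF (vd c.q 1) := (QS.rest_vd F hF c.q 1)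
        rw [QS.rest_dg, h1]
        exact restL_mono F hF ha)
      (fun i => by
        obtain ⟨α, h1, h2⟩ := hk i
        refine ⟨fun l => QS.rest F hF (α l), fun l => ?_, ?_⟩
        · have h3 : (c.rest F hF).b i = restL F hF (c.b i) := (restL_io F hF (hl.bdd i)).symm
          rw [QS.rest_dg, h3]
          exact restL_mono F hF (h1 l)
        · have h3 : (c.rest F hF).q 0 = QS.rest F hF (c.q 0) := rfl
          rw [h3, ← rest_pe, ← map_sub]
          exact Helper82.TP.rest_mem_Id F hF h2)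
    exact ⟨T, p, E, hE, Θ, h1, h2, h3⟩)
  refine ⟨S, Pj.id S, Θ, h1, ?_⟩
  simp only [Pj.id_qs]
  exact h2

end

end Pool.Agent.Helper81.THA
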