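import Pool.Agent.Helper31.EC.RobS
import Pool.Agent.Helper31.EC.Diag

/-! EXHAUSTION for small families of values: if on every event of positive probability some small families of values
(one finite family for every cell of the base) contain a good value with positive probability, then small families
contain a good value typically. -/

set_option autoImplicit false

namespace Pool.Agent.Helper81.THA

open Finset Filter Topology Pool.Agent.Helper69.RK Pool.Agent.Helper31.EC Pool.Agent.Helper31.EC.Sp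

noncomputable section

/-! ### probabilities -/

section pb

variable (F : FSp)

open Classical in
theorem pb_eq (E : F.Ω → Prop) : F.pb E = ∑ ω, if E ω then F.μ ω else 0 := by
  unfold FSp.pb mass
  apply Finset.sum_congr rfl
  intro ω _
  by_cases h : E ω
  · rw [res_pos _ _ _ h, if_pos h]
  · rw [res_neg _ _ _ h, if_neg h]

/-- disjoint events -/
theorem pb_disj (A B C : F.Ω → Prop) (h1 : ∀ ω, A ω → C ω) (h2 : ∀ ω, B ω → C ω) (h3 : ∀ ω, A ω → ¬ B ω) :
    F.pb A + F.pb B ≤ F.pb C := by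
  classical
  rw [pb_eq, pb_eq, pb_eq, ← Finset.sum_add_distrib]
  apply Finset.sum_le_sum
  intro ω _
  by_cases a : A ω
  · rw [if_pos a, if_neg (h3 ω a), if_pos (h1 ω a), add_zero]
  · rw [if_neg a, zero_add]
    by_cases b : B ω
    · rw [if_pos b, if_pos (h2 ω b)]
    · rw [if_neg b]
      split_ifs
      · exact F.nn ω
      · exact le_rfl

theorem pb_false : F.pb (fun _ => False) = 0 := by
  classical
  rw [pb_eq]
  simp

/-- intersections -/
theorem pb_inter (A B : F.Ω → Prop) : F.pb A + F.pb B ≤ F.pb (fun ω => A ω ∧ B ω) + 1 := by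
  have h1 := pb_disj F (fun ω => A ω ∧ B ω) (fun ω => A ω ∧ ¬ B ω) A (fun _ h => h.1) (fun _ h => h.1)
    (fun _ h h' => h'.2 h.2)
  classical
  have h2 : F.pb A ≤ F.pb (fun ω => A ω ∧ B ω) + F.pb (fun ω => ¬ B ω) := by
    rw [pb_eq, pb_eq, pb_eq, ← Finset.sum_add_distrib]
    apply Finset.sum_le_sum
    intro ω _
    by_cases a : A ω
    · by_cases b : B ω
      · rw [if_pos a, if_pos ⟨a, b⟩, if_neg (fun h => h b), add_zero]
      · rw [if_pos a, if_neg (fun h => b h.2), if_pos b, zero_add]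
    · rw [if_neg a]
      have := F.nn ω
      split_ifs <;> simp [this]
  have h3 := F.pb_add_compl B
  linarith

end pb

/-! ### families -/

section fam

variable {S : Sp} {X : ℕ → Type}

/-- families of values, one finite family for every cell of the base -/
abbrev Fam (S : Sp) (X : ℕ → Type) (k : ℕ) : Type := Quotient (S.F k).Z → Finset (X k)

/-- families with at most `2 ^ (η n)` values -/
def Few {k : ℕ} (Λ : Fam S X k) (η : ℝ) : Prop := ∀ z, ((Λ z).card : ℝ) ≤ 2 ^ (η * (S.F k).n)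

/-- some value of the family is good -/
def Gv (G : ∀ k, ℝ → X k → (S.F k).Ω → Prop) (k : ℕ) (η : ℝ) (Λ : Fam S X k) (ω : (S.F k).Ω) : Prop :=
  ∃ θ ∈ Λ (Quotient.mk (S.F k).Z ω), G k η θ ω

variable (G : ∀ k, ℝ → X k → (S.F k).Ω → Prop)

/-- probabilities of families with few values -/
def fset (k : ℕ) (η : ℝ) : Set ℝ := {x | ∃ Λ : Fam S X k, Few Λ η ∧ x = (S.F k).pb (Gv G k η Λ)}

theorem fset_bdd (k : ℕ) (η : ℝ) : BddAbove (fset G k η) := by
  refine ⟨1, ?_⟩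
  rintro x ⟨Λ, _, rfl⟩
  exact (S.F k).pb_le_one _

theorem few_empty (k : ℕ) (η : ℝ) : Few (S := S) (X := X) (k := k) (fun _ => ∅) η := by
  intro z
  rw [Finset.card_empty, Nat.cast_zero]
  positivity

theorem fset_ne (k : ℕ) (η : ℝ) : (fset G k η).Nonempty := ⟨_, fun _ => ∅, few_empty k η, rfl⟩

/-- the largest probability -/
def fsu (k : ℕ) (η : ℝ) : ℝ := sSup (fset G k η)

theorem le_fsu {k : ℕ} {η : ℝ} {Λ : Fam S X k} (h : Few Λ η) : (S.F k).pb (Gv G k η Λ) ≤ fsu G k η :=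
  le_csSup (fset_bdd G k η) ⟨Λ, h, rfl⟩

theorem fsu_le (k : ℕ) (η : ℝ) : fsu G k η ≤ 1 := by
  apply csSup_le (fset_ne G k η)
  rintro x ⟨Λ, _, rfl⟩
  exact (S.F k).pb_le_one _

theorem fsu_nonneg (k : ℕ) (η : ℝ) : 0 ≤ fsu G k η :=
  ((S.F k).pb_nonneg _).trans (le_fsu G (few_empty k η))

theorem fsu_UB (η : ℕ → ℝ) : UB (fun k => fsu G k (η k)) :=
  UB_of_nonneg_le (C := 1) (Eventually.of_forall fun k => fsu_nonneg G k _) (Eventually.of_forall fun k => fsu_le G k _)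

variable {G}

/-- a family of almost maximal probability -/
theorem exists_fam (k : ℕ) (η ε : ℝ) (hε : 0 < ε) :
    ∃ Λ : Fam S X k, Few Λ η ∧ fsu G k η - ε < (S.F k).pb (Gv G k η Λ) := by
  obtain ⟨x, ⟨Λ, h1, rfl⟩, h2⟩ := exists_lt_of_lt_csSup (fset_ne G k η) (show fsu G k η - ε < sSup (fset G k η) by
    show fsu G k η - ε < fsu G k η
    linarith)
  exact ⟨Λ, h1, h2⟩

theorem fsu_mono (hG : ∀ k η η' θ ω, η ≤ η' → G k η θ ω → G k η' θ ω) {k : ℕ} {η η' : ℝ} (h : η ≤ η') :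
    fsu G k η ≤ fsu G k η' := by
  apply csSup_le (fset_ne G k η)
  rintro x ⟨Λ, hΛ, rfl⟩
  have hn := (S.F k).pos
  have h1 : Few Λ η' := fun z => (hΛ z).trans (Real.rpow_le_rpow_of_exponent_le (by norm_num)
    (mul_le_mul_of_nonneg_right h hn.le))
  refine le_trans ?_ (le_fsu G h1)
  apply (S.F k).pb_mono
  rintro ω _ ⟨θ, h2, h3⟩
  exact ⟨θ, h2, hG k η η' θ ω h h3⟩

open Classical in
theorem few_union {k : ℕ} {Λ Λ' : Fam S X k} {a b c : ℝ} (h : Few Λ a) (h' : Few Λ' b)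
    (hc : (2 : ℝ) ^ (a * (S.F k).n) + 2 ^ (b * (S.F k).n) ≤ 2 ^ (c * (S.F k).n)) : Few (fun z => Λ z ∪ Λ' z) c := by
  intro z
  have h1 : (((Λ z ∪ Λ' z).card : ℕ) : ℝ) ≤ (Λ z).card + (Λ' z).card := by
    exact_mod_cast Finset.card_union_le (Λ z) (Λ' z)
  have h2 := h z
  have h3 := h' z
  linarith

/-- EXHAUSTION -/
theorem exh (hG : ∀ k η η' θ ω, η ≤ η' → G k η θ ω → G k η' θ ω)
    (hloc : ∀ E : ∀ k, (S.F k).Ω → Prop, 0 < ul (S.pr E) → ∃ c : ℝ, 0 < c ∧ ∀ η : ℝ, 0 < η → ∀ᶠ k in UF,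
      ∃ Λ : Fam S X k, Few Λ η ∧ c ≤ (S.F k).pb (fun ω => E k ω ∧ Gv G k η Λ ω)) :
    ∃ e : ℕ → ℝ, Tendsto e UF (𝓝 0) ∧ (∀ k, 0 < e k) ∧ ∃ Λ : ∀ k, Fam S X k, (∀ k, Few (Λ k) (e k)) ∧
      Typ (fun k ω => Gv G k (e k) (Λ k) ω) := by
  classical
  set d : ℕ → ℝ := fun j => 1 / ((j : ℝ) + 1) with hd
  have hdp : ∀ j, 0 < d j := fun j => by rw [hd]; positivity
  have hd0 : Tendsto d atTop (𝓝 0) := tendsto_one_div_add_atTop_nhds_zero_nat
  have hdm : Antitone d := by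
    intro i j hij
    show 1 / ((j : ℝ) + 1) ≤ 1 / ((i : ℝ) + 1)
    apply one_div_le_one_div_of_le (by positivity)
    have : (i : ℝ) ≤ j := by exact_mod_cast hij
    linarith
  -- the iterated limit
  obtain ⟨σ, hσ⟩ : ∃ σ, Tendsto (fun j => ul (fun k => fsu G k (d j))) atTop (𝓝 σ) := by
    have h1 : Antitone (fun j => ul (fun k => fsu G k (d j))) := by
      intro i j hij
      exact ul_mono (fsu_UB G _) (fsu_UB G _) (Eventually.of_forall fun k => fsu_mono hG (hdm hij))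
    refine ⟨_, tendsto_atTop_ciInf h1 ⟨0, ?_⟩⟩
    rintro x ⟨j, rfl⟩
    exact const_le_ul (fsu_UB G _) (Eventually.of_forall fun k => fsu_nonneg G k _)
  obtain ⟨J, hJ, hJ1, _⟩ := diag_in_place (fun _ j k => fsu G k (d j)) (fun _ _ _ => True) (fun _ _ => fsu_UB G _)
    (fun _ _ => Eventually.of_forall fun _ => trivial)
  have hlim : Tendsto (fun k => fsu G k (d (J k))) UF (𝓝 σ) := diag_tendsto hJ (hJ1 0) hσ
  have he : Tendsto (fun k => d (J k)) UF (𝓝 0) := hd0.comp hJ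
  choose Λ hΛ1 hΛ2 using fun k => exists_fam (G := G) k (d (J k)) (d (J k)) (hdp _)
  refine ⟨fun k => d (J k), he, fun k => hdp _, Λ, hΛ1, ?_⟩
  rcases typ_or (fun k ω => Gv G k (d (J k)) (Λ k) ω) with ht | hE
  · exact ht
  exfalso
  obtain ⟨c, hc, hloc⟩ := hloc _ hE
  obtain ⟨j0, hj0⟩ : ∃ j0, ul (fun k => fsu G k (d j0)) < σ + c / 2 :=
    (hσ.eventually (gt_mem_nhds (show σ < σ + c / 2 by linarith))).exists
  have hn2 : ∀ᶠ k in UF, (2 : ℝ) ≤ d j0 * (S.F k).n := by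
    filter_upwards [S.lim.eventually (eventually_ge_atTop (2 / d j0))] with k hk
    rw [div_le_iff₀ (hdp j0)] at hk
    linarith
  have hmain : ∀ᶠ k in UF, fsu G k (d (J k)) - d (J k) + c ≤ fsu G k (d j0) := by
    filter_upwards [hloc (d j0 / 2) (half_pos (hdp j0)), he.eventually (gt_mem_nhds (half_pos (hdp j0))), hn2]
      with k h1 h2 h3
    obtain ⟨Λ', h4, h5⟩ := h1
    have hn := (S.F k).pos
    have e1 : Few (fun z => Λ k z ∪ Λ' z) (d j0) := by
      apply few_union (hΛ1 k) h4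
      have e2 : (2 : ℝ) ^ (d (J k) * (S.F k).n) ≤ 2 ^ (d j0 / 2 * (S.F k).n) :=
        Real.rpow_le_rpow_of_exponent_le (by norm_num) (mul_le_mul_of_nonneg_right h2.le hn.le)
      have e3 : (2 : ℝ) ^ (d j0 * (S.F k).n) = 2 ^ (d j0 / 2 * (S.F k).n) * 2 ^ (d j0 / 2 * (S.F k).n) := by
        rw [← Real.rpow_add (by norm_num)]
        congr 1
        ring
      have e4 : (2 : ℝ) ≤ 2 ^ (d j0 / 2 * (S.F k).n) := by
        have e5 : (2 : ℝ) ^ (1 : ℝ) ≤ 2 ^ (d j0 / 2 * (S.F k).n) :=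
          Real.rpow_le_rpow_of_exponent_le (by norm_num) (by linarith)
        rwa [Real.rpow_one] at e5
      rw [e3]
      nlinarith
    have e6 := le_fsu G e1
    have e7 := pb_disj (S.F k) (Gv G k (d (J k)) (Λ k))
      (fun ω => (¬ Gv G k (d (J k)) (Λ k) ω) ∧ Gv G k (d j0 / 2) Λ' ω) (Gv G k (d j0) (fun z => Λ k z ∪ Λ' z))
      (by
        rintro ω ⟨θ, a, b⟩
        exact ⟨θ, Finset.mem_union_left _ a, hG k _ _ θ ω (by linarith [hdp j0]) b⟩)
      (by
        rintro ω ⟨_, θ, a, b⟩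
        exact ⟨θ, Finset.mem_union_right _ a, hG k _ _ θ ω (by linarith [hdp j0]) b⟩)
      (fun ω h h' => h'.1 h)
    have e8 := hΛ2 k
    linarith
  have h1 : Tendsto (fun k => fsu G k (d (J k)) - d (J k) + c) UF (𝓝 (σ - 0 + c)) :=
    (hlim.sub he).add_const c
  have h2 := le_of_tendsto_of_tendsto h1 (ul_tendsto (fsu_UB G fun _ => d j0)) hmain
  have h3 : ul (fun k => fsu G k ((fun _ => d j0) k)) < σ + c / 2 := hj0
  linarith

end fam

end

end Pool.Agent.Helper81.THA
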